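import Pool.Agent.H705.RO.Stm2

/-! # VL2: first moment (helper296, for helper705) -/

set_option autoImplicit false

namespace Pool.Agent.H296.RO

open MeasureTheory ProbabilityTheory Filter Topology Finset Pool.Agent.H705.RO

theorem T_VL2 : P_VL2 := by
  intro Ω _ P _ E T τ lam hE hT hτ hlam h
  obtain ⟨E1, hE1⟩ : ∃ E1 : Set (Ω × ℝ), E1 = E ∩ (Set.univ ×ˢ Set.Icc 0 T) := ⟨_, rfl⟩
  have hm : MeasurableSet E1 := by
    rw [hE1]
    exact hE.inter (MeasurableSet.univ.prod measurableSet_Icc)
  have hsec : ∀ ω, {t : ℝ | 0 ≤ t ∧ t ≤ T ∧ (ω, t) ∈ E} = Prod.mk ω ⁻¹' E1 := by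
    intro ω
    ext t
    rw [hE1]
    constructor
    · rintro ⟨h1, h2, h3⟩
      exact ⟨h3, Set.mem_univ _, h1, h2⟩
    · rintro ⟨h3, -, h1, h2⟩
      exact ⟨h1, h2, h3⟩
  have hZ : Measurable fun ω => (volume : Measure ℝ) (Prod.mk ω ⁻¹' E1) :=
    measurable_measure_prodMk_left hm
  have hint : ∫⁻ ω, (volume : Measure ℝ) (Prod.mk ω ⁻¹' E1) ∂P ≤
      ENNReal.ofReal τ * ENNReal.ofReal T := by
    rw [← Measure.prod_apply hm, Measure.prod_apply_symm hm]
    calc ∫⁻ t, P ((fun ω => (ω, t)) ⁻¹' E1) ∂(volume : Measure ℝ)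
        ≤ ∫⁻ t, (Set.Icc 0 T).indicator (fun _ => ENNReal.ofReal τ) t ∂(volume : Measure ℝ) := by
          refine lintegral_mono fun t => ?_
          by_cases ht : t ∈ Set.Icc 0 T
          · rw [Set.indicator_of_mem ht]
            refine (measure_mono ?_).trans (h t ht.1 ht.2)
            intro ω hω
            rw [hE1] at hω
            exact hω.1
          · rw [Set.indicator_of_notMem ht]
            have : (fun ω : Ω => (ω, t)) ⁻¹' E1 = ∅ := by
              ext ω
              rw [hE1]
              constructor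
              · intro hω
                exact absurd hω.2.2 ht
              · intro hω
                exact absurd hω (Set.notMem_empty _)
            rw [this, measure_empty]
      _ = ENNReal.ofReal τ * ENNReal.ofReal T := by
          rw [lintegral_indicator measurableSet_Icc, lintegral_const,
            Measure.restrict_apply_univ, Real.volume_Icc, sub_zero]
  have hmk := mul_meas_ge_le_lintegral (μ := P) hZ (ENNReal.ofReal lam)
  have hlam0 : ENNReal.ofReal lam ≠ 0 := by
    rw [Ne, ENNReal.ofReal_eq_zero, not_le]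
    exact hlam
  rw [ENNReal.ofReal_div_of_pos hlam,
    ENNReal.le_div_iff_mul_le (Or.inl hlam0) (Or.inl ENNReal.ofReal_ne_top), mul_comm,
    ENNReal.ofReal_mul hT.le, mul_comm (ENNReal.ofReal T)]
  refine le_trans ?_ (hmk.trans hint)
  refine mul_le_mul_right ?_ _
  refine measure_mono fun ω hω => ?_
  have hω' : ENNReal.ofReal lam ≤
      (volume : Measure ℝ) {t : ℝ | 0 ≤ t ∧ t ≤ T ∧ (ω, t) ∈ E} := hω
  rw [hsec] at hω'
  exact hω'

end Pool.Agent.H296.RO
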